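import Pool.Agent.H60.CV.Targets

namespace Pool.Agent.H60.CV

open Finset

theorem cell (hsep : S_SEP) : S_CELL := by
  intro X _ _ S κ size dim K A b pt w w0 B H et si de m hconv hfeas hopt hbd hBS hBc
    het hsi hde hpos htot hne
  classical
  obtain ⟨x0, hx0⟩ := hne
  have hm : 0 ≤ m := le_trans (abs_nonneg _) (hbd x0 hx0)
  -- the correction weights
  let om : X → ℝ := fun x => et + 2 * si * (∑ i, (if x ∈ B i then (1 : ℝ) else 0)) +
    2 * si * (if x = x0 then 1 else 0)
  have hom0 : ∀ x, 0 ≤ om x := by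
    intro x
    simp only [om]
    have h1 : (0 : ℝ) ≤ ∑ i, (if x ∈ B i then (1 : ℝ) else 0) :=
      Finset.sum_nonneg fun i _ => by split_ifs <;> norm_num
    have h2 : (0 : ℝ) ≤ (if x = x0 then 1 else 0) := by split_ifs <;> norm_num
    positivity
  -- sums against the correction weights
  have hsum : ∀ g : X → ℝ, ∑ x ∈ S, om x * g x =
      et * ∑ x ∈ S, g x + 2 * si * ∑ i, ∑ x ∈ B i, g x + 2 * si * g x0 := by
    intro g
    simp only [om, add_mul, Finset.sum_add_distrib]
    congr 1
    · congr 1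
      · rw [Finset.mul_sum]
      · have h1 : ∀ x, 2 * si * (∑ i, (if x ∈ B i then (1 : ℝ) else 0)) * g x =
            2 * si * ∑ i, (if x ∈ B i then g x else 0) := by
          intro x
          rw [mul_assoc, Finset.sum_mul]
          congr 1
          exact Finset.sum_congr rfl fun i _ => by split_ifs <;> ring
        simp only [h1]
        rw [← Finset.mul_sum, Finset.sum_comm]
        congr 1
        refine Finset.sum_congr rfl fun i _ => ?_
        rw [← Finset.sum_filter]
        refine Finset.sum_congr ?_ fun _ _ => rfl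
        ext x
        simp only [Finset.mem_filter]
        exact ⟨fun h => h.2, fun h => ⟨hBS i h, h⟩⟩
    · have h1 : ∀ x, 2 * si * (if x = x0 then (1 : ℝ) else 0) * g x =
          if x = x0 then 2 * si * g x else 0 := by
        intro x
        split_ifs <;> ring
      simp only [h1]
      rw [Finset.sum_ite_eq' S x0, if_pos hx0]
  let W : X → ℝ := fun x => H x + om x
  have hWsum : ∀ g : X → ℝ, ∑ x ∈ S, W x * g x = ∑ x ∈ S, H x * g x +
      (et * ∑ x ∈ S, g x + 2 * si * ∑ i, ∑ x ∈ B i, g x + 2 * si * g x0) := by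
    intro g
    simp only [W, add_mul, Finset.sum_add_distrib]
    rw [hsum]
  set t : ℝ := ∑ x ∈ S, W x with ht
  have ht' : t = ∑ x ∈ S, H x + (et * S.card + 2 * si * ∑ i, ((B i).card : ℝ) + 2 * si) := by
    have := hWsum (fun _ => 1)
    simpa using this
  have hBsum : 0 ≤ ∑ i, ((B i).card : ℝ) := Finset.sum_nonneg fun i _ => Nat.cast_nonneg _
  have htpos : 0 < t := by
    rw [ht']
    nlinarith
  have htH : ∑ x ∈ S, H x ≤ t := by
    rw [ht']
    have : 0 ≤ et * (S.card : ℝ) := by positivity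
    nlinarith
  -- the barycenter
  let y : Fin dim → ℝ := fun k => (∑ x ∈ S, W x * pt x k) / t
  have haff : ∀ (ww : Fin dim → ℝ) (c : ℝ),
      ∑ k, ww k * y k + c = (∑ x ∈ S, W x * (∑ k, ww k * pt x k + c)) / t := by
    intro ww c
    rw [eq_div_iff htpos.ne']
    simp only [y]
    rw [add_mul, Finset.sum_mul]
    have h1 : ∀ k, ww k * ((∑ x ∈ S, W x * pt x k) / t) * t = ∑ x ∈ S, W x * (ww k * pt x k) := by
      intro k
      rw [mul_assoc, div_mul_cancel₀ _ htpos.ne', Finset.mul_sum]
      exact Finset.sum_congr rfl fun x _ => by ring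
    simp only [h1]
    rw [Finset.sum_comm]
    have h2 : c * t = ∑ x ∈ S, W x * c := by rw [← Finset.sum_mul, mul_comm]
    rw [h2, ← Finset.sum_add_distrib]
    refine Finset.sum_congr rfl fun x _ => ?_
    rw [← Finset.mul_sum, ← mul_add]
  have hyfeas : ∀ i, (fun a => ∑ k, A i a k * y k + b i a) ∈ K i := by
    intro i
    let Gx : X → (Fin κ → ℝ) := fun x a => ∑ k, A i a k * pt x k + b i a
    have hfin : (Gx '' (S : Set X)).Finite := (Finset.finite_toSet S).image Gx
    have hsub : convexHull ℝ (Gx '' (S : Set X)) ⊆ K i := by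
      refine convexHull_min ?_ (hconv i)
      rintro _ ⟨x, hx, rfl⟩
      exact hfeas x hx i
    refine hsub (hsep κ (convexHull ℝ (Gx '' (S : Set X))) _ (convex_convexHull ℝ _)
      (hfin.isCompact_convexHull ℝ).isClosed ?_)
    intro f f0 hf
    have hnn : ∀ x ∈ S, 0 ≤ ∑ a, f a * (∑ k, A i a k * pt x k + b i a) + f0 :=
      fun x hx => hf (Gx x) (subset_convexHull ℝ _ ⟨x, hx, rfl⟩)
    have e1 : ∑ a, f a * (∑ k, A i a k * y k + b i a) + f0 =
        (∑ x ∈ S, W x * (∑ a, f a * (∑ k, A i a k * pt x k + b i a) + f0)) / t := by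
      rw [eq_div_iff htpos.ne', add_mul, Finset.sum_mul]
      have h1 : ∀ a, f a * (∑ k, A i a k * y k + b i a) * t =
          ∑ x ∈ S, W x * (f a * (∑ k, A i a k * pt x k + b i a)) := by
        intro a
        rw [haff (A i a) (b i a), mul_assoc, div_mul_cancel₀ _ htpos.ne', Finset.mul_sum]
        exact Finset.sum_congr rfl fun x _ => by ring
      simp only [h1]
      rw [Finset.sum_comm]
      have h2 : f0 * t = ∑ x ∈ S, W x * f0 := by rw [← Finset.sum_mul, mul_comm]
      rw [h2, ← Finset.sum_add_distrib]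
      refine Finset.sum_congr rfl fun x _ => ?_
      rw [← Finset.mul_sum, ← mul_add]
    rw [e1]
    refine div_nonneg ?_ htpos.le
    rw [hWsum]
    have h2 := hpos i f f0 hnn
    have h3 : ∑ x ∈ B i, (∑ a, f a * (∑ k, A i a k * pt x k + b i a) + f0) ≤
        ∑ i', ∑ x ∈ B i', (∑ a, f a * (∑ k, A i a k * pt x k + b i a) + f0) := by
      refine Finset.single_le_sum (f := fun i' => ∑ x ∈ B i',
        (∑ a, f a * (∑ k, A i a k * pt x k + b i a) + f0)) ?_ (Finset.mem_univ i)
      intro i' _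
      exact Finset.sum_nonneg fun x hx => hnn x (hBS i' hx)
    have h4 := hnn x0 hx0
    have h5 : 2 * si * ∑ x ∈ B i, (∑ a, f a * (∑ k, A i a k * pt x k + b i a) + f0) ≤
        2 * si * ∑ i', ∑ x ∈ B i', (∑ a, f a * (∑ k, A i a k * pt x k + b i a) + f0) :=
      mul_le_mul_of_nonneg_left h3 (by positivity)
    have h6 : 0 ≤ 2 * si * (∑ a, f a * (∑ k, A i a k * pt x0 k + b i a) + f0) := by positivity
    linarith
  have hval := hopt y hyfeas
  rw [haff w w0, le_div_iff₀ htpos] at hval
  rw [hWsum] at hval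
  have h7 : et * ∑ x ∈ S, (∑ k, w k * pt x k + w0) ≤ et * m * S.card := by
    have : ∑ x ∈ S, (∑ k, w k * pt x k + w0) ≤ ∑ x ∈ S, m :=
      Finset.sum_le_sum fun x hx => le_trans (le_abs_self _) (hbd x hx)
    rw [Finset.sum_const, nsmul_eq_mul] at this
    calc et * ∑ x ∈ S, (∑ k, w k * pt x k + w0) ≤ et * (S.card * m) :=
          mul_le_mul_of_nonneg_left this het
      _ = et * m * S.card := by ring
  have h8 : ∑ i, ∑ x ∈ B i, (∑ k, w k * pt x k + w0) ≤ m * (size * (κ + 1)) := by
    calc ∑ i, ∑ x ∈ B i, (∑ k, w k * pt x k + w0) ≤ ∑ i : Fin size, ∑ x ∈ B i, m :=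
          Finset.sum_le_sum fun i _ => Finset.sum_le_sum fun x hx =>
            le_trans (le_abs_self _) (hbd x (hBS i hx))
      _ = ∑ i : Fin size, ((B i).card : ℝ) * m := by
          refine Finset.sum_congr rfl fun i _ => ?_
          rw [Finset.sum_const, nsmul_eq_mul]
      _ ≤ ∑ i : Fin size, ((κ : ℝ) + 1) * m := by
          refine Finset.sum_le_sum fun i _ => mul_le_mul_of_nonneg_right ?_ hm
          exact_mod_cast hBc i
      _ = m * (size * (κ + 1)) := by
          rw [Finset.sum_const, nsmul_eq_mul, Finset.card_univ, Fintype.card_fin]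
          ring
  have h9 : ∑ k, w k * pt x0 k + w0 ≤ m := le_trans (le_abs_self _) (hbd x0 hx0)
  have h10 : de * ∑ x ∈ S, H x ≤ de * t := mul_le_mul_of_nonneg_left htH hde
  have h11 : 2 * si * ∑ i, ∑ x ∈ B i, (∑ k, w k * pt x k + w0) ≤
      2 * si * (m * (size * (κ + 1))) := mul_le_mul_of_nonneg_left h8 (by positivity)
  have h12 : 2 * si * (∑ k, w k * pt x0 k + w0) ≤ 2 * si * m :=
    mul_le_mul_of_nonneg_left h9 (by positivity)
  nlinarith

end Pool.Agent.H60.CV
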