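import Pool.Agent.H60.CV.Targets
import Pool.Agent.H1.LP.Core2

/-!
# SETH for convex relaxations: the family of functions
-/

namespace Pool.Agent.H60.CV

open Finset
open Pool.Agent.H1.LP (Loc PD Viol Sys supp ip val Agree kk eta vsi S_KEY S_BASE S_LOC S_ENC S_FORM
  S_PAR ext arith1 key')

/-- index type of the family of functions -/
abbrev Idx {B R : ℕ} (M N0 b κ M0 : ℕ) (T : Fin R → Finset (Fin B)) : Type :=
  Fin M × ((Fin N0 × (Fin (κ + 1) → Fin (M0 + 1))) ⊕
    ((Bool × (Σ i : Fin R, ({j // j ∈ T i} → (Fin b → Bool)))) ⊕ Unit))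

theorem card_idx {B R : ℕ} (M N0 b k κ M0 : ℕ) (T : Fin R → Finset (Fin B))
    (hT : ∀ i, (T i).card = k) :
    Fintype.card (Idx M N0 b κ M0 T) =
      M * (N0 * (M0 + 1) ^ (κ + 1) + (2 * (R * 2 ^ (b * k)) + 1)) := by
  have h : ∀ i : Fin R, Fintype.card ({j // j ∈ T i} → (Fin b → Bool)) = 2 ^ (b * k) := by
    intro i
    simp [hT i, pow_mul]
  simp only [Idx, Fintype.card_prod, Fintype.card_sum, Fintype.card_sigma, h, Fintype.card_fin,
    Fintype.card_bool, Fintype.card_unit, sum_const, card_univ, smul_eq_mul, Fintype.card_fun]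

open Classical in
/-- the family of functions -/
noncomputable def fam {B R n b κ M N0 M0 : ℕ} (T : Fin R → Finset (Fin B))
    (P : Fin M → Relax n κ)
    (asg : (Fin B → Fin b → Bool) → (Fin n → Bool))
    (cl : Finset (Fin B) → (Fin B → Fin b → Bool) → Clause n)
    (u : Fin M → Fin N0 → (Fin (κ + 1) → Fin (M0 + 1)) → (Fin B → Fin b → Bool) → ℝ) :
    Idx M N0 b κ M0 T → (Fin B → Fin b → Bool) → ℝ
  | (j, Sum.inl (a, z)) => u j a z
  | (j, Sum.inr (Sum.inl (sg, ⟨i, v⟩))) => fun x =>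
      if asg x ∈ (P j).cell then
        max ((if sg then (1 : ℝ) else -1) *
          (P j).loss (cl (T i) (ext (T i) v)) ((P j).pt (asg x))) 0 else 0
  | (j, Sum.inr (Sum.inr _)) => fun x => if asg x ∈ (P j).cell then 1 else 0

theorem fam_nonneg {B R n b κ M N0 M0 : ℕ} (T : Fin R → Finset (Fin B)) (P : Fin M → Relax n κ)
    (asg : (Fin B → Fin b → Bool) → (Fin n → Bool))
    (cl : Finset (Fin B) → (Fin B → Fin b → Bool) → Clause n)
    (u : Fin M → Fin N0 → (Fin (κ + 1) → Fin (M0 + 1)) → (Fin B → Fin b → Bool) → ℝ)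
    (hu : ∀ j a z x, 0 ≤ u j a z x) (i : Idx M N0 b κ M0 T)
    (x : Fin B → Fin b → Bool) : 0 ≤ fam T P asg cl u i x := by
  rcases i with ⟨j, ⟨a, z⟩ | ⟨sg, i, v⟩ | w⟩
  · exact hu j a z x
  · simp only [fam]
    split_ifs <;> first | exact le_max_right _ _ | exact le_rfl
  · simp only [fam]
    split_ifs <;> norm_num

/-- the vector function of a constraint -/
noncomputable def vec {n κ b B : ℕ} (P : Relax n κ) (asg : (Fin B → Fin b → Bool) → (Fin n → Bool))
    (a : ℕ) (x : Fin B → Fin b → Bool) : Fin (κ + 1) → ℝ :=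
  if h : a < P.size then
    Fin.cons 1 (fun a' => ∑ k, P.A ⟨a, h⟩ a' k * P.pt (asg x) k + P.b ⟨a, h⟩ a') else 0

theorem vec_sum {n κ b B : ℕ} (P : Relax n κ) (asg : (Fin B → Fin b → Bool) → (Fin n → Bool))
    (i : Fin P.size) (f : Fin κ → ℝ) (f0 : ℝ) (x : Fin B → Fin b → Bool) :
    ∑ a, (Fin.cons f0 f : Fin (κ + 1) → ℝ) a * vec P asg i.1 x a =
      ∑ a, f a * (∑ k, P.A i a k * P.pt (asg x) k + P.b i a) + f0 := by
  rw [Fin.sum_univ_succ]
  simp only [vec, dif_pos i.2, Fin.cons_zero, Fin.cons_succ, mul_one]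
  rw [add_comm]

/-- the total loss as an affine functional -/
theorem loss_sum {n κ m : ℕ} (P : Relax n κ) (phi : Fin m → Clause n) (y : Fin P.dim → ℝ) :
    ∑ k, (∑ a, P.w (phi a) k) * y k + ∑ a, P.w0 (phi a) = ∑ a, P.loss (phi a) y := by
  simp only [Relax.loss, sum_add_distrib]
  congr 1
  simp only [sum_mul]
  rw [sum_comm]

theorem PD_abs {p B d : ℕ} [NeZero p] {Q : Type} (S : Loc p B d) (al : Fin B → Q → ZMod p)
    (x : Fin B → Q) : |PD S al x| ≤ (p : ℝ) ^ B := by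
  unfold PD
  refine (abs_sum_le_sum_abs _ _).trans ?_
  calc ∑ l ∈ S.La, |(ZMod.stdAddChar (ip l (val al x) - S.ga l)).re| ≤ ∑ l ∈ S.La, (1 : ℝ) := by
        refine sum_le_sum fun l _ => ?_
        refine (Complex.abs_re_le_norm _).trans ?_
        rw [AddChar.norm_apply]
    _ = S.La.card := by simp
    _ ≤ Fintype.card (Fin B → ZMod p) := by exact_mod_cast card_le_univ _
    _ = (p : ℝ) ^ B := by
        rw [Fintype.card_fun, Fintype.card_fin, ZMod.card]
        push_cast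
        rfl

end Pool.Agent.H60.CV
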