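import Pool.Agent.H60.CV.Core

/-!
# SETH for convex relaxations: one cell, and the sum over the cells
-/

namespace Pool.Agent.H60.CV

open Finset
open Pool.Agent.H1.LP (Loc PD Viol Sys supp ip val Agree kk eta vsi S_KEY S_BASE S_LOC S_ENC S_FORM
  S_PAR ext arith1 key')

/-- one cell -/
theorem onecell (hCe : S_CELL) {n κ m b B : ℕ} (P : Relax n κ) (phi : Fin m → Clause n)
    (I : Finset (Fin P.size)) (asg : (Fin B → Fin b → Bool) → (Fin n → Bool))
    (H : (Fin B → Fin b → Bool) → ℝ) (et si de : ℝ) (Bf : Fin P.size → Finset (Fin B → Fin b → Bool))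
    (Sj : Finset (Fin B → Fin b → Bool)) (hSj : ∀ x, x ∈ Sj ↔ asg x ∈ P.cell)
    (het : 0 ≤ et) (hsi : 0 < si) (hde : 0 ≤ de)
    (hBS : ∀ i, Bf i ⊆ Sj) (hBc : ∀ i, (Bf i).card ≤ κ + 1)
    (hnet : ∀ (i : Fin P.size) (ps : Fin (κ + 1) → ℝ),
      (∀ x ∈ Sj, 0 ≤ ∑ a, ps a * vec P asg i.1 x a) →
      -(et * ∑ x ∈ Sj, ∑ a, ps a * vec P asg i.1 x a +
        2 * si * ∑ x ∈ Bf i, ∑ a, ps a * vec P asg i.1 x a) ≤
        ∑ x ∈ Sj, H x * ∑ a, ps a * vec P asg i.1 x a)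
    (hcell : -(et * (Sj.card : ℝ) + si) ≤ ∑ x ∈ Sj, H x)
    (hloss : ∀ a : Fin m, ∑ x ∈ Sj, H x * P.loss (phi a) (P.pt (asg x)) ≤
      et * (Sj.card : ℝ) + 2 * si)
    (href : P.RefutesBy I phi de) :
    de * ∑ x ∈ Sj, H x ≤ 2 * et * m * (Sj.card : ℝ) + 2 * si * m * (I.card * (κ + 1) + 2) := by
  by_cases hne : Sj.Nonempty
  swap
  · rw [not_nonempty_iff_eq_empty] at hne
    rw [hne]
    simp only [sum_empty, mul_zero, card_empty, Nat.cast_zero, zero_add]
    positivity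
  have hc := hCe (Fin B → Fin b → Bool) Sj κ
    I.card P.dim (fun i => P.K (I.equivFin.symm i))
    (fun i => P.A (I.equivFin.symm i)) (fun i => P.b (I.equivFin.symm i))
    (fun x => P.pt (asg x)) (fun k => ∑ a, P.w (phi a) k) (∑ a, P.w0 (phi a))
    (fun i => Bf (I.equivFin.symm i : Fin P.size)) H et si de m
    (fun i => P.convex _)
    (fun x hx i => P.feas (asg x) ((hSj x).1 hx) _)
    (by
      intro y hy
      rw [loss_sum]
      apply href y
      intro i hi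
      have h9 := hy (I.equivFin ⟨i, hi⟩)
      rw [Equiv.symm_apply_apply] at h9
      exact h9)
    (by
      intro x hx
      rw [loss_sum]
      refine (abs_sum_le_sum_abs _ _).trans ?_
      calc ∑ a, |P.loss (phi a) (P.pt (asg x))| ≤ ∑ _a : Fin m, (1 : ℝ) :=
            sum_le_sum fun a _ => P.bdd (asg x) ((hSj x).1 hx) (phi a)
        _ = m := by rw [sum_const, card_univ, Fintype.card_fin, nsmul_eq_mul, mul_one])
    (fun i => hBS _)
    (fun i => hBc _)
    het hsi hde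
    (by
      intro i f f0 hf
      have h9 := hnet (I.equivFin.symm i : Fin P.size) (Fin.cons f0 f) (by
        intro x hx
        rw [vec_sum]
        exact hf x hx)
      simp only [vec_sum] at h9
      exact h9)
    hcell hne
  have e1 : ∀ x, ∑ k, (∑ a, P.w (phi a) k) * P.pt (asg x) k +
      ∑ a, P.w0 (phi a) = ∑ a, P.loss (phi a) (P.pt (asg x)) :=
    fun x => loss_sum P phi _
  simp only [e1] at hc
  have h9 : ∑ x ∈ Sj, H x * ∑ a, P.loss (phi a) (P.pt (asg x)) ≤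
      et * m * (Sj.card : ℝ) + 2 * si * m := by
    simp only [mul_sum]
    rw [sum_comm]
    calc ∑ a, ∑ x ∈ Sj, H x * P.loss (phi a) (P.pt (asg x))
        ≤ ∑ _a : Fin m, (et * (Sj.card : ℝ) + 2 * si) := sum_le_sum fun a _ => hloss a
      _ = _ := by
        rw [sum_const, card_univ, Fintype.card_fin, nsmul_eq_mul]
        ring
  linarith

/-- the sum over the cells -/
theorem sumup {X ι : Type} [Fintype X] [DecidableEq X] (J : Finset ι) (Sj : ι → Finset X)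
    (H : X → ℝ) (et si de m κ : ℝ) (r : ι → ℝ) (NX : ℝ) (hNX : NX = Fintype.card X) (h0 : 0 < NX)
    (hdisj : ∀ j ∈ J, ∀ j' ∈ J, j ≠ j' → Disjoint (Sj j) (Sj j'))
    (hcov : ∀ x, ∃ j ∈ J, x ∈ Sj j) (hde : 0 ≤ de) (hm : 0 ≤ m) (hsi : 0 ≤ si) (hκ : 0 ≤ κ)
    (hr : ∀ j, 0 ≤ r j)
    (hone : ∀ j ∈ J, de * ∑ x ∈ Sj j, H x ≤
      2 * et * m * ((Sj j).card : ℝ) + 2 * (si * NX) * m * (r j * (κ + 1) + 2))
    (htot : NX / 4 ≤ ∑ x, H x) :
    de ≤ 8 * m * et + 12 * m * si * (4 / 3 * (κ + 1) * ∑ j ∈ J, (r j + 1)) := by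
  have hpart : ∀ F : X → ℝ, ∑ j ∈ J, ∑ x ∈ Sj j, F x = ∑ x, F x := by
    intro F
    have h1 : ∀ j, ∑ x ∈ Sj j, F x = ∑ x, if x ∈ Sj j then F x else 0 := by
      intro j
      rw [← sum_filter]
      refine sum_congr ?_ fun _ _ => rfl
      ext x
      simp
    simp only [h1]
    rw [sum_comm]
    refine sum_congr rfl fun x _ => ?_
    obtain ⟨j, hj, hxj⟩ := hcov x
    rw [sum_eq_single_of_mem j hj, if_pos hxj]
    intro j' hj' hne
    rw [if_neg]
    intro hx'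
    exact Finset.disjoint_left.mp (hdisj j hj j' hj' hne.symm) hxj hx'
  have hsum := sum_le_sum hone
  rw [← mul_sum, hpart, sum_add_distrib, ← mul_sum, ← mul_sum] at hsum
  have hcards : ∑ j ∈ J, ((Sj j).card : ℝ) = NX := by
    have h9 := hpart (fun _ => 1)
    simp only [sum_const, nsmul_eq_mul, mul_one] at h9
    rw [h9, card_univ, hNX]
  rw [hcards] at hsum
  have h10 : de * (NX / 4) ≤ de * ∑ x, H x := mul_le_mul_of_nonneg_left htot hde
  have h11 : ∑ j ∈ J, (r j * (κ + 1) + 2) ≤ 2 * (κ + 1) * ∑ j ∈ J, (r j + 1) := by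
    rw [mul_sum]
    refine sum_le_sum fun j _ => ?_
    have h12 := hr j
    nlinarith [mul_nonneg h12 hκ]
  have h14 : 2 * (si * NX) * m * ∑ j ∈ J, (r j * (κ + 1) + 2) ≤
      2 * (si * NX) * m * (2 * (κ + 1) * ∑ j ∈ J, (r j + 1)) :=
    mul_le_mul_of_nonneg_left h11 (by positivity)
  have h15 : de * NX ≤ (8 * m * et + 12 * m * si *
      (4 / 3 * (κ + 1) * ∑ j ∈ J, (r j + 1))) * NX := by
    have e1 : (8 * m * et + 12 * m * si *
      (4 / 3 * (κ + 1) * ∑ j ∈ J, (r j + 1))) * NX =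
      4 * (2 * et * m * NX + 2 * (si * NX) * m *
        (2 * (κ + 1) * ∑ j ∈ J, (r j + 1))) := by ring
    rw [e1]
    linarith
  exact le_of_mul_le_mul_right h15 h0

/-- the bound for the losses of one clause on one cell -/
theorem lossbd {n κ b B : ℕ} (P : Relax n κ) (C : Clause n)
    (asg : (Fin B → Fin b → Bool) → (Fin n → Bool))
    (H : (Fin B → Fin b → Bool) → ℝ) (et si : ℝ) (het : 0 ≤ et)
    (Sj : Finset (Fin B → Fin b → Bool)) (hSj : ∀ x, x ∈ Sj ↔ asg x ∈ P.cell)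
    (F1 F2 : (Fin B → Fin b → Bool) → ℝ)
    (hF1 : ∀ x, F1 x = if x ∈ Sj then max (P.loss C (P.pt (asg x))) 0 else 0)
    (hF2 : ∀ x, F2 x = if x ∈ Sj then max (-P.loss C (P.pt (asg x))) 0 else 0)
    (h1 : ∑ x, H x * F1 x ≤ et * ∑ x, F1 x + si)
    (h2 : -(et * ∑ x, F2 x + si) ≤ ∑ x, H x * F2 x) :
    ∑ x ∈ Sj, H x * P.loss C (P.pt (asg x)) ≤ et * (Sj.card : ℝ) + 2 * si := by
  have hcs : ∀ F : (Fin B → Fin b → Bool) → ℝ,
      ∑ x ∈ Sj, F x = ∑ x, if x ∈ Sj then F x else 0 := by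
    intro F
    rw [← sum_filter]
    refine sum_congr ?_ fun _ _ => rfl
    ext x
    simp
  have e1 : ∑ x ∈ Sj, |P.loss C (P.pt (asg x))| = (∑ x, F1 x) + ∑ x, F2 x := by
    rw [hcs, ← sum_add_distrib]
    refine sum_congr rfl fun x _ => ?_
    rw [hF1, hF2]
    split_ifs
    · rcases le_total 0 (P.loss C (P.pt (asg x))) with h | h
      · rw [abs_of_nonneg h, max_eq_left h, max_eq_right (by linarith), add_zero]
      · rw [abs_of_nonpos h, max_eq_right h, max_eq_left (by linarith), zero_add]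
    · simp
  have e2 : ∑ x ∈ Sj, H x * P.loss C (P.pt (asg x)) =
      (∑ x, H x * F1 x) - ∑ x, H x * F2 x := by
    rw [hcs, ← sum_sub_distrib]
    refine sum_congr rfl fun x _ => ?_
    rw [hF1, hF2]
    split_ifs
    · rcases le_total 0 (P.loss C (P.pt (asg x))) with h | h
      · rw [max_eq_left h, max_eq_right (by linarith : -(P.loss C (P.pt (asg x))) ≤ 0)]
        ring
      · rw [max_eq_right h, max_eq_left (by linarith : 0 ≤ -(P.loss C (P.pt (asg x))))]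
        ring
    · simp
  have e3 : ∑ x ∈ Sj, |P.loss C (P.pt (asg x))| ≤ (Sj.card : ℝ) := by
    calc ∑ x ∈ Sj, |P.loss C (P.pt (asg x))| ≤ ∑ x ∈ Sj, (1 : ℝ) := by
          refine sum_le_sum fun x hx => ?_
          exact P.bdd (asg x) ((hSj x).1 hx) C
      _ = _ := by rw [sum_const, nsmul_eq_mul, mul_one]
  rw [e2]
  have e4 := mul_le_mul_of_nonneg_left e3 het
  rw [e1] at e4
  linarith

end Pool.Agent.H60.CV
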