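import Pool.Agent.H60.CV.Core1

/-!
# SETH for convex relaxations: the core statement
-/

namespace Pool.Agent.H60.CV

open Finset
open Pool.Agent.H1.LP (Loc PD Viol Sys supp ip val Agree kk eta vsi S_KEY S_BASE S_LOC S_ENC S_FORM
  S_PAR ext arith1 key')

/-- the core statement -/
def S_CORE : Prop :=
  ∀ (E g s n B κ M N0 M0 : ℕ) (P : Fin M → Relax n κ), 16 ≤ E → 1 ≤ g → 0 < s → 2 * kk E ≤ B →
    B * (4 * E * g) ≤ n → 4 * 2 ^ (4 * E + 1) * B ≤ 2 ^ g → 8 * s ≤ 4 ^ g →
    4 * (κ + 1) * 2 ^ n ≤ M0 →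
    ((M : ℝ) * (N0 * (M0 + 1) ^ (κ + 1) + 2 * (4 * E * B * 2 ^ (4 * E * g * kk E)) + 1) *
      2 ^ (4 * E * g * B) + 1) * (2 ^ (4 * E + 1)) ^ B < 4 ^ s →
    (∀ j, (P j).size ≤ N0) →
    ∃ (m : ℕ) (phi : Fin m → Clause n), 1 ≤ m ∧ m ≤ 4 * E * B * 2 ^ (4 * E * g * kk E) ∧
      (∀ i, (phi i).card = 4 * E * g * kk E ∧ ((phi i).image Prod.fst).card = 4 * E * g * kk E) ∧
      (∀ x, (1 - 1 / (E : ℝ)) * (m / 2 ^ (4 * E * g * kk E)) ≤ (viol phi x : ℝ)) ∧
      ∀ (J : Finset (Fin M)) (I : (j : Fin M) → Finset (Fin (P j).size)) (de : ℝ), 0 < de →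
        (∀ j ∈ J, ∀ j' ∈ J, j ≠ j' → Disjoint (P j).cell (P j').cell) →
        (∀ x, ∃ j ∈ J, x ∈ (P j).cell) →
        (∀ j ∈ J, (P j).RefutesBy (I j) phi de) →
        de ≤ 8 * m * eta E g B +
          12 * m * vsi E g B * (4 / 3 * (κ + 1) * ∑ j ∈ J, (((I j).card : ℝ) + 1))

theorem core (hK : S_KEY) (hB : S_BASE) (hL : S_LOC) (hEn : S_ENC) (hF : S_FORM) (hN : S_NETH)
    (hCe : S_CELL) : S_CORE := by
  classical
  intro E g s n B κ M N0 M0 P hE hg hs hkB hBn h1 h2 hM0 h3 hsz
  obtain ⟨ht1, h9t, hkd, hB0⟩ := arith1 hE hkB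
  obtain ⟨p, hp, hple, T, Y, hT, hsupp, hz⟩ := hB E B (by omega) (by
    show kk E ≤ B
    omega)
  have := hp
  obtain ⟨S, hS⟩ := hL p B (4 * E * B) (B / E) (B - 8 * (B / E)) Y ht1
  obtain ⟨b, hb⟩ : ∃ b, 4 * E * g = b := ⟨_, rfl⟩
  have hbE : b = 4 * E * g := hb.symm
  simp only [hb] at hBn h3 ⊢
  obtain ⟨asg, dec, cl, hda, hsat, hcard⟩ := hEn n B b hBn
  have hT' : ∀ i, (T i).card = kk E := hT
  have hrow : ∀ i, Y.A i ∈ S.La ∧ S.ga (Y.A i) = Y.be i := by
    intro i
    apply hS
    calc (supp (Y.A i)).card ≤ (T i).card := card_le_card (hsupp i)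
      _ = kk E := hT' i
      _ ≤ _ := hkd
  have hQ : (Fintype.card (Fin b → Bool) : ℝ) = 2 ^ b := by
    rw [Fintype.card_fun, Fintype.card_bool, Fintype.card_fin]
    push_cast
    rfl
  have hpR : (p : ℝ) ≤ 2 ^ (4 * E + 1) := by exact_mod_cast hple
  have hp0 : (0 : ℝ) < p := by exact_mod_cast (Fact.out : p.Prime).pos
  have hp1 : (1 : ℝ) ≤ p := by exact_mod_cast (Fact.out : p.Prime).one_le
  have hM0pos : 0 < M0 := lt_of_lt_of_le (by positivity) hM0
  -- the nets
  choose Bf uf hBS hBc hu0 hu1 huS hnet using fun (j : Fin M) (a : Fin N0) =>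
    hN (Fin B → Fin b → Bool) (univ.filter (fun x => asg x ∈ (P j).cell)) (κ + 1) M0
      (vec (P j) asg a.1) hM0pos
  -- the typical table
  obtain ⟨al, k1, k2, k3⟩ := key' hK p B (B - 8 * (B / E)) (Fin b → Bool) S (2 ^ (4 * g)) s g
    (B / E) (B - 9 * (B / E)) (Idx M N0 b κ M0 T) (fam T P asg cl uf) hs
    (by
      have : (1 : ℝ) < 2 ^ (4 * g) := one_lt_pow₀ (by norm_num) (by omega)
      exact this)
    (by
      rw [hQ]
      exact pow_le_pow_right₀ (by norm_num) (by rw [hbE]; nlinarith))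
    (by
      have h2' : (8 * s : ℝ) ≤ 4 ^ g := by exact_mod_cast h2
      calc (8 * s * 4 ^ g : ℝ) ≤ 4 ^ g * 4 ^ g := by gcongr
        _ = 2 ^ (4 * g) := by
          rw [← mul_pow]
          norm_num [pow_mul])
    (by
      refine le_trans ?_ h1
      gcongr)
    (by omega)
    (fun i x => fam_nonneg T P asg cl uf hu0 i x)
    (by
      rw [card_idx M N0 b (kk E) κ M0 T hT', hQ]
      refine lt_of_le_of_lt ?_ h3
      push_cast
      rw [← pow_mul, ← pow_mul]
      have e1 : (p : ℝ) ^ B ≤ 2 ^ ((4 * E + 1) * B) := by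
        rw [pow_mul]
        gcongr
      have e2 : (N0 : ℝ) * (M0 + 1) ^ (κ + 1) + (2 * ((4 * E * B : ℝ) * 2 ^ (b * kk E)) + 1) =
          N0 * (M0 + 1) ^ (κ + 1) + 2 * (4 * E * B * 2 ^ (b * kk E)) + 1 := by
        ring
      rw [e2]
      gcongr)
  set et : ℝ := 2 * (p : ℝ) ^ B / 2 ^ (g * (B / E + 1)) with het
  set si : ℝ := (p : ℝ) ^ B * (2 ^ (4 * g) / (Fintype.card (Fin b → Bool) : ℝ)) ^
    (B - 9 * (B / E) + 1) with hsi
  have het0 : 0 ≤ et := by positivity
  have hsipos : 0 < si := by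
    rw [hsi, hQ]
    positivity
  have hsi0 : 0 ≤ si := hsipos.le
  have hsilow : (p : ℝ) ^ B ≤ si * 2 ^ n := by
    rw [hsi, hQ]
    have e1 : (1 : ℝ) ≤ (2 ^ (4 * g) / 2 ^ b) ^ (B - 9 * (B / E) + 1) * 2 ^ n := by
      have e2 : (1 : ℝ) / 2 ^ b ≤ 2 ^ (4 * g) / 2 ^ b := by
        gcongr
        exact one_le_pow₀ (by norm_num)
      have e3 : ((1 : ℝ) / 2 ^ b) ^ B ≤ (1 / 2 ^ b) ^ (B - 9 * (B / E) + 1) := by
        apply pow_le_pow_of_le_one (by positivity)
        · rw [div_le_one (by positivity)]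
          exact one_le_pow₀ (by norm_num)
        · omega
      have e4 : ((1 : ℝ) / 2 ^ b) ^ B * 2 ^ n = 2 ^ n / 2 ^ (B * b) := by
        rw [div_pow, one_pow, ← pow_mul, mul_comm b B]
        ring
      calc (1 : ℝ) ≤ 2 ^ n / 2 ^ (B * b) := by
            rw [le_div_iff₀ (by positivity), one_mul]
            exact pow_le_pow_right₀ (by norm_num) hBn
        _ = (1 / 2 ^ b) ^ B * 2 ^ n := e4.symm
        _ ≤ (1 / 2 ^ b) ^ (B - 9 * (B / E) + 1) * 2 ^ n := by gcongr
        _ ≤ (2 ^ (4 * g) / 2 ^ b) ^ (B - 9 * (B / E) + 1) * 2 ^ n := by gcongr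
    calc (p : ℝ) ^ B = (p : ℝ) ^ B * 1 := (mul_one _).symm
      _ ≤ (p : ℝ) ^ B * ((2 ^ (4 * g) / 2 ^ b) ^ (B - 9 * (B / E) + 1) * 2 ^ n) := by gcongr
      _ = _ := by ring
  -- the formula
  obtain ⟨m, phi, hm, hphi, hviol⟩ := hF p B (4 * E * B) (kk E) b n T Y.A Y.be al dec cl hT' hsupp
    hsat
  have hviol' : ∀ y, viol phi y = (univ.filter (fun i => ip (Y.A i) (val al (dec y)) ≠ Y.be i)).card :=
    hviol
  have hvlow : ∀ y, (4 * E - 3) * B ≤ viol phi y := by
    intro y
    rw [hviol' y]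
    exact hz _
  have hvm : ∀ y, viol phi y ≤ m := by
    intro y
    unfold viol
    refine (card_le_univ _).trans ?_
    rw [Fintype.card_fin]
  have hm1 : 1 ≤ m := by
    have := (hvlow (fun _ => false)).trans (hvm _)
    have h4 : 1 ≤ (4 * E - 3) * B := Nat.mul_pos (by omega) hB0
    omega
  refine ⟨m, phi, hm1, hm, ?_, ?_, ?_⟩
  · intro a
    obtain ⟨i, v, -, hav, -⟩ := hphi a
    rw [hav]
    have := hcard (T i) v
    rw [hT' i] at this
    rw [mul_comm (kk E)] at this
    exact this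
  · intro y
    have h5 : ((m : ℝ) / 2 ^ (b * kk E)) ≤ 4 * E * B := by
      rw [div_le_iff₀ (by positivity)]
      exact_mod_cast hm
    have hE1 : (0 : ℝ) < E := by
      have : 0 < E := by omega
      exact_mod_cast this
    have hE3 : (16 : ℝ) ≤ E := by exact_mod_cast hE
    have h6 : (0 : ℝ) ≤ 1 - 1 / (E : ℝ) := by
      rw [sub_nonneg, div_le_one hE1]
      linarith
    have h7 : (((4 * E - 3) * B : ℕ) : ℝ) ≤ viol phi y := by exact_mod_cast hvlow y
    have h8 : (((4 * E - 3) * B : ℕ) : ℝ) = (4 * E - 3) * B := by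
      rw [Nat.cast_mul, Nat.cast_sub (by omega)]
      push_cast
      ring
    rw [h8] at h7
    refine le_trans ?_ h7
    calc (1 - 1 / (E : ℝ)) * (m / 2 ^ (b * kk E)) ≤ (1 - 1 / (E : ℝ)) * (4 * E * B) := by gcongr
      _ = (4 * E - 4) * B := by
        field_simp
      _ ≤ (4 * E - 3) * B := by
        have : (0 : ℝ) ≤ B := by positivity
        nlinarith
  · intro J I de hde hdisj hcov href
    -- comparison of the error terms
    have hpB : (p : ℝ) ^ B ≤ 2 ^ ((4 * E + 1) * B) := by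
      rw [pow_mul]
      gcongr
    have het' : et ≤ eta E g B := by
      rw [het]
      unfold eta
      gcongr
    have hsi' : si ≤ vsi E g B := by
      rw [hsi, hQ]
      unfold vsi
      rw [hb]
      gcongr
    have hW : (0 : ℝ) ≤ ∑ j ∈ J, (((I j).card : ℝ) + 1) :=
      sum_nonneg fun j _ => add_nonneg (Nat.cast_nonneg _) zero_le_one
    have hW' : (0 : ℝ) ≤ 4 / 3 * (κ + 1) * ∑ j ∈ J, (((I j).card : ℝ) + 1) :=
      mul_nonneg (by positivity) hW
    suffices hsuff : de ≤ 8 * m * et + 12 * m * si *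
        (4 / 3 * (κ + 1) * ∑ j ∈ J, (((I j).card : ℝ) + 1)) by
      have e5 : 8 * (m : ℝ) * et ≤ 8 * m * eta E g B :=
        mul_le_mul_of_nonneg_left het' (by positivity)
      have e6 : 12 * (m : ℝ) * si ≤ 12 * m * vsi E g B :=
        mul_le_mul_of_nonneg_left hsi' (by positivity)
      have e7 := mul_le_mul_of_nonneg_right e6 hW'
      linarith
    by_cases hett : et ≤ 1 / 8
    swap
    · push Not at hett
      obtain ⟨j, hj, hxj⟩ := hcov (fun _ => false)
      have h4 := href j hj ((P j).pt (fun _ => false)) (fun i _ => (P j).feas _ hxj i)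
      have h5 : ∑ i, (P j).loss (phi i) ((P j).pt (fun _ => false)) ≤ m := by
        calc ∑ i, (P j).loss (phi i) ((P j).pt (fun _ => false)) ≤ ∑ _i : Fin m, (1 : ℝ) :=
              sum_le_sum fun i _ => (le_abs_self _).trans ((P j).bdd _ hxj _)
          _ = m := by rw [sum_const, card_univ, Fintype.card_fin, nsmul_eq_mul, mul_one]
      have h6 : (m : ℝ) ≤ 8 * m * et := by
        have : (0 : ℝ) ≤ m := Nat.cast_nonneg _
        nlinarith
      have h7 : 0 ≤ 12 * m * si * (4 / 3 * (κ + 1) * ∑ j ∈ J, (((I j).card : ℝ) + 1)) :=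
        mul_nonneg (by positivity) hW'
      linarith
    have hcXR : (Fintype.card (Fin b → Bool) : ℝ) ^ B =
        (Fintype.card (Fin B → Fin b → Bool) : ℝ) := by
      have h9 : Fintype.card (Fin B → Fin b → Bool) = Fintype.card (Fin b → Bool) ^ B := by
        rw [Fintype.card_fun, Fintype.card_fin]
      rw [h9]
      push_cast
      rfl
    obtain ⟨NX, hNX⟩ : ∃ NX : ℝ, NX = (Fintype.card (Fin b → Bool) : ℝ) ^ B := ⟨_, rfl⟩
    rw [← hNX] at k3
    have k1' : ∀ i, (∀ x, fam T P asg cl uf i x ≤ 1) →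
        -(et * ∑ x, fam T P asg cl uf i x + si * NX) ≤ ∑ x, PD S al x * fam T P asg cl uf i x := by
      intro i hi
      have h9 := k1 i 1 hi
      rw [mul_one] at h9
      rw [hNX]
      exact h9
    have k2' : ∀ i (T0 : Finset (Fin B)) (w : Fin B → Fin b → Bool),
        (∀ x, fam T P asg cl uf i x ≤ 1) → (∀ x, fam T P asg cl uf i x ≠ 0 → Agree T0 x w) →
        Viol S T0 (val al w) →
        ∑ x, PD S al x * fam T P asg cl uf i x ≤ et * ∑ x, fam T P asg cl uf i x + si * NX := by
      intro i T0 w hi hA hV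
      have h9 := k2 i T0 w 1 hi hA hV
      rw [mul_one] at h9
      rw [hNX]
      exact (le_abs_self _).trans h9
    have hNXpos : 0 < NX := by
      rw [hNX, hQ]
      positivity
    have hsiNX : 0 < si * NX := mul_pos hsipos hNXpos
    refine sumup J (fun j => univ.filter (fun x => asg x ∈ (P j).cell)) (PD S al) et si de m κ
      (fun j => ((I j).card : ℝ)) NX (hNX.trans hcXR) hNXpos ?_ ?_ hde.le (Nat.cast_nonneg _)
      hsi0 (Nat.cast_nonneg _) (fun j => Nat.cast_nonneg _) ?_ ?_
    · intro j hj j' hj' hne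
      rw [Finset.disjoint_left]
      intro x hx hx'
      rw [mem_filter] at hx hx'
      exact Finset.disjoint_left.mp (hdisj j hj j' hj' hne) hx.2 hx'.2
    · intro x
      obtain ⟨j, hj, hx⟩ := hcov (asg x)
      exact ⟨j, hj, mem_filter.2 ⟨mem_univ _, hx⟩⟩
    · intro j hj
      refine onecell hCe (P j) phi (I j) asg (PD S al) et (si * NX) de
        (fun i => Bf j ⟨i.1, lt_of_lt_of_le i.2 (hsz j)⟩)
        (univ.filter (fun x => asg x ∈ (P j).cell))
        (fun x => by rw [mem_filter]; exact ⟨fun h => h.2, fun h => ⟨mem_univ _, h⟩⟩)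
        het0 hsiNX hde.le (fun i => hBS j _) (fun i => hBc j _) ?_ ?_ ?_ (href j hj)
      · intro i ps hps
        refine hnet j ⟨i.1, lt_of_lt_of_le i.2 (hsz j)⟩ (PD S al) et (si * NX) ((p : ℝ) ^ B) het0
          hsiNX.le (PD_abs S al) (fun z => ?_) ?_ ps hps
        · exact k1' (j, Sum.inl (⟨i.1, lt_of_lt_of_le i.2 (hsz j)⟩, z)) (fun x => hu1 j _ z x)
        · rw [← hcXR, ← hNX]
          have e1 : et ≤ (p : ℝ) ^ B := by
            have : (1 : ℝ) ≤ (p : ℝ) ^ B := one_le_pow₀ hp1
            linarith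
          have hM0R : (4 * ((κ : ℝ) + 1) * 2 ^ n) ≤ M0 := by exact_mod_cast hM0
          have hM0R' : (0 : ℝ) < M0 := by exact_mod_cast hM0pos
          have e2 : ((p : ℝ) ^ B + et) * (2 * ((κ + 1 : ℕ) : ℝ) / M0) ≤ si := by
            rw [mul_div_assoc', div_le_iff₀ hM0R']
            push_cast
            calc ((p : ℝ) ^ B + et) * (2 * ((κ : ℝ) + 1))
                ≤ ((p : ℝ) ^ B + (p : ℝ) ^ B) * (2 * ((κ : ℝ) + 1)) := by gcongr
              _ = (p : ℝ) ^ B * (4 * ((κ : ℝ) + 1)) := by ring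
              _ ≤ (si * 2 ^ n) * (4 * ((κ : ℝ) + 1)) := by gcongr
              _ = si * (4 * ((κ : ℝ) + 1) * 2 ^ n) := by ring
              _ ≤ si * M0 := by gcongr
          calc ((p : ℝ) ^ B + et) * NX * (2 * ((κ + 1 : ℕ) : ℝ) / M0)
              = ((p : ℝ) ^ B + et) * (2 * ((κ + 1 : ℕ) : ℝ) / M0) * NX := by ring
            _ ≤ si * NX := mul_le_mul_of_nonneg_right e2 hNXpos.le
      · have hfam : ∀ x, fam T P asg cl uf (j, Sum.inr (Sum.inr ())) x =
            if asg x ∈ (P j).cell then 1 else 0 := fun x => rfl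
        have h4 := k1' (j, Sum.inr (Sum.inr ())) (fun x => by
          rw [hfam]
          split_ifs <;> norm_num)
        have e1 : (((univ.filter (fun x => asg x ∈ (P j).cell)).card : ℕ) : ℝ) =
            ∑ x, fam T P asg cl uf (j, Sum.inr (Sum.inr ())) x := by
          simp only [hfam]
          rw [Finset.card_filter]
          push_cast
          rfl
        have e2 : ∑ x ∈ univ.filter (fun x => asg x ∈ (P j).cell), PD S al x =
            ∑ x, PD S al x * fam T P asg cl uf (j, Sum.inr (Sum.inr ())) x := by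
          rw [sum_filter]
          refine sum_congr rfl fun x _ => ?_
          rw [hfam x]
          split_ifs
          · rw [mul_one]
          · rw [mul_zero]
        rw [e1, e2]
        exact h4
      · intro a
        obtain ⟨i, v, hv, hav, hne⟩ := hphi a
        have hext : H1.LP.ext (T i) (fun q => v q.1) = v := by
          funext q
          unfold H1.LP.ext
          split_ifs with h
          · rfl
          · exact (hv q h).symm
        have hV : Viol S (T i) (val al v) :=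
          ⟨Y.A i, (hrow i).1, hsupp i, by rw [(hrow i).2]; exact hne⟩
        have hf1 : ∀ x, fam T P asg cl uf (j, Sum.inr (Sum.inl (true, ⟨i, fun q => v q.1⟩))) x =
            if asg x ∈ (P j).cell then max ((P j).loss (phi a) ((P j).pt (asg x))) 0 else 0 := by
          intro x
          simp only [fam, hext, ← hav, if_true, one_mul]
        have hf2 : ∀ x, fam T P asg cl uf (j, Sum.inr (Sum.inl (false, ⟨i, fun q => v q.1⟩))) x =
            if asg x ∈ (P j).cell then max (-(P j).loss (phi a) ((P j).pt (asg x))) 0 else 0 := by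
          intro x
          simp only [fam, hext, ← hav]
          simp
        have hb1 : ∀ x, asg x ∈ (P j).cell → |(P j).loss (phi a) ((P j).pt (asg x))| ≤ 1 :=
          fun x hx => (P j).bdd (asg x) hx (phi a)
        have hmemj : ∀ x, x ∈ univ.filter (fun x => asg x ∈ (P j).cell) ↔ asg x ∈ (P j).cell :=
          fun x => by rw [mem_filter]; exact ⟨fun h => h.2, fun h => ⟨mem_univ _, h⟩⟩
        refine lossbd (P j) (phi a) asg (PD S al) et (si * NX) het0 _ hmemj
          (fam T P asg cl uf (j, Sum.inr (Sum.inl (true, ⟨i, fun q => v q.1⟩))))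
          (fam T P asg cl uf (j, Sum.inr (Sum.inl (false, ⟨i, fun q => v q.1⟩)))) ?_ ?_ ?_ ?_
        · intro x
          rw [hf1 x]
          simp only [hmemj]
        · intro x
          rw [hf2 x]
          simp only [hmemj]
        · refine k2' (j, Sum.inr (Sum.inl (true, ⟨i, fun q => v q.1⟩))) (T i) v (fun x => ?_)
            (fun x hx => ?_) hV
          · rw [hf1]
            split_ifs with hx
            · exact max_le ((le_abs_self _).trans (hb1 x hx)) zero_le_one
            · exact zero_le_one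
          · rw [hf1] at hx
            split_ifs at hx with hx'
            · by_contra hA'
              have hs' : Clause.Sat (phi a) (asg x) := by
                have h9 := (hsat (T i) v (asg x)).2 (by rw [hda]; exact hA')
                rw [← hav] at h9
                exact h9
              have := (P j).sound (asg x) hx' (phi a) hs'
              exact hx (max_eq_right this)
            · exact absurd rfl hx
        · refine k1' (j, Sum.inr (Sum.inl (false, ⟨i, fun q => v q.1⟩))) (fun x => ?_)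
          rw [hf2]
          split_ifs with hx
          · exact max_le ((neg_le_abs _).trans (hb1 x hx)) zero_le_one
          · exact zero_le_one
    · refine le_trans ?_ k3
      have e1 : et ≤ 1 / 8 := hett
      calc NX / 4 = (3 / 8 - 1 / 8) * NX := by ring
        _ ≤ (3 / 8 - et) * NX := by
          apply mul_le_mul_of_nonneg_right _ hNXpos.le
          linarith

end Pool.Agent.H60.CV
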