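import Pool.Agent.H60.CV.Targets

namespace Pool.Agent.H60.CV

open Finset

theorem net (hspan : S_SPAN) : S_NET := by
  intro X _ _ S d M0 v hM0
  classical
  obtain ⟨B, hBS, hBc, lam, hlam⟩ := hspan X S d v
  have hM : (0 : ℝ) < M0 := by exact_mod_cast hM0
  -- an embedding of B into Fin d
  obtain ⟨σ⟩ : Nonempty (B ↪ Fin d) := by
    apply Function.Embedding.nonempty_of_card_le
    simpa using hBc
  let val : (Fin d → ℝ) → X → ℝ := fun ps x => ∑ a, ps a * v x a
  have hval : ∀ ps, ∀ x ∈ S, val ps x = ∑ b ∈ B, lam x b * val ps b := by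
    intro ps x hx
    simp only [val]
    calc ∑ a, ps a * v x a = ∑ a, ps a * ∑ b ∈ B, lam x b * v b a := by
          refine Finset.sum_congr rfl fun a _ => ?_
          rw [(hlam x hx).2 a]
      _ = ∑ a, ∑ b ∈ B, lam x b * (ps a * v b a) := by
          refine Finset.sum_congr rfl fun a _ => ?_
          rw [Finset.mul_sum]
          refine Finset.sum_congr rfl fun b _ => ?_
          ring
      _ = ∑ b ∈ B, lam x b * ∑ a, ps a * v b a := by
          rw [Finset.sum_comm]
          refine Finset.sum_congr rfl fun b _ => ?_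
          rw [Finset.mul_sum]
  let Good : (Fin d → Fin (M0 + 1)) → (Fin d → ℝ) → Prop := fun z ps =>
    (∀ x ∈ S, 0 ≤ val ps x) ∧ ∑ b ∈ B, val ps b = 1 ∧
      ∀ b : B, |val ps b - ((z (σ b) : ℕ) : ℝ) / M0| ≤ 1 / M0
  let u : (Fin d → Fin (M0 + 1)) → X → ℝ := fun z x =>
    if h : ∃ ps, Good z ps then (if x ∈ S then val h.choose x else 0) else 0
  have hle1 : ∀ ps, (∀ x ∈ S, 0 ≤ val ps x) → ∑ b ∈ B, val ps b = 1 → ∀ x ∈ S,
      val ps x ≤ 1 := by
    intro ps h0 h1 x hx
    rw [hval ps x hx, ← h1]
    refine Finset.sum_le_sum fun b hb => ?_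
    have h2 : 0 ≤ val ps b := h0 b (hBS hb)
    calc lam x b * val ps b ≤ 1 * val ps b :=
          mul_le_mul_of_nonneg_right (le_trans (le_abs_self _) ((hlam x hx).1 b)) h2
      _ = val ps b := one_mul _
  refine ⟨B, u, hBS, hBc, ?_, ?_, ?_, ?_⟩
  · intro z x
    simp only [u]
    split_ifs with h hx
    · exact h.choose_spec.1 x hx
    · exact le_refl _
    · exact le_refl _
  · intro z x
    simp only [u]
    split_ifs with h hx
    · exact hle1 _ h.choose_spec.1 h.choose_spec.2.1 x hx
    · exact zero_le_one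
    · exact zero_le_one
  · intro z x hx
    simp only [u]
    split_ifs with h
    · rfl
    · rfl
  · intro ps hps
    change ∃ z, ∀ x ∈ S, |val ps x - (∑ b ∈ B, val ps b) * u z x| ≤
      (∑ b ∈ B, val ps b) * (2 * d / M0)
    set s : ℝ := ∑ b ∈ B, val ps b with hs
    have hs0 : 0 ≤ s := Finset.sum_nonneg fun b hb => hps b (hBS hb)
    rcases hs0.eq_or_lt with h0 | hpos
    · refine ⟨fun _ => 0, fun x hx => ?_⟩
      have h1 : ∀ b ∈ B, val ps b = 0 :=
        (Finset.sum_eq_zero_iff_of_nonneg (fun b hb => hps b (hBS hb))).1 (hs.symm.trans h0.symm)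
      have h2 : val ps x = 0 := by
        rw [hval ps x hx]
        exact Finset.sum_eq_zero fun b hb => by rw [h1 b hb, mul_zero]
      rw [h2, ← h0]
      simp
    · let ps' : Fin d → ℝ := fun a => ps a / s
      have hval' : ∀ x, val ps' x = val ps x / s := by
        intro x
        simp only [val, ps']
        rw [Finset.sum_div]
        exact Finset.sum_congr rfl fun a _ => by ring
      have h0' : ∀ x ∈ S, 0 ≤ val ps' x := by
        intro x hx
        rw [hval']
        exact div_nonneg (hps x hx) hs0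
      have h1' : ∑ b ∈ B, val ps' b = 1 := by
        simp only [hval']
        rw [← Finset.sum_div, ← hs, div_self hpos.ne']
      let z : Fin d → Fin (M0 + 1) := fun i =>
        if h : ∃ b : B, σ b = i then
          ⟨min ⌊(M0 : ℝ) * val ps' h.choose⌋₊ M0, by omega⟩ else 0
      have hz : ∀ b : B, |val ps' b - ((z (σ b) : ℕ) : ℝ) / M0| ≤ 1 / M0 := by
        intro b
        have hex : ∃ b' : B, σ b' = σ b := ⟨b, rfl⟩
        have hch : hex.choose = b := σ.injective hex.choose_spec
        have hb0 : 0 ≤ val ps' b := h0' _ (hBS b.2)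
        have hb1 : val ps' b ≤ 1 := hle1 ps' h0' h1' _ (hBS b.2)
        have hz1 : (z (σ b) : ℕ) = ⌊(M0 : ℝ) * val ps' b⌋₊ := by
          simp only [z]
          rw [dif_pos hex]
          show min ⌊(M0 : ℝ) * val ps' hex.choose⌋₊ M0 = ⌊(M0 : ℝ) * val ps' b⌋₊
          rw [hch]
          apply min_eq_left
          have : ⌊(M0 : ℝ) * val ps' b⌋₊ ≤ ⌊(M0 : ℝ)⌋₊ := by
            apply Nat.floor_le_floor
            nlinarith
          simpa using this
        rw [hz1]
        have h2 := Nat.floor_le (mul_nonneg hM.le hb0)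
        have h3 := Nat.lt_floor_add_one ((M0 : ℝ) * val ps' b)
        have h4 : val ps' b - ((⌊(M0 : ℝ) * val ps' b⌋₊ : ℕ) : ℝ) / M0 =
            ((M0 : ℝ) * val ps' b - (⌊(M0 : ℝ) * val ps' b⌋₊ : ℕ)) / M0 := by
          field_simp
        rw [h4, abs_div, abs_of_pos hM]
        refine div_le_div_of_nonneg_right ?_ hM.le
        rw [abs_le]
        constructor
        · linarith
        · linarith
      have hgood : ∃ q, Good z q := ⟨ps', h0', h1', hz⟩
      refine ⟨z, fun x hx => ?_⟩
      have hu : u z x = val hgood.choose x := by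
        simp only [u]
        rw [dif_pos hgood, if_pos hx]
      obtain ⟨hq0, hq1, hq2⟩ := hgood.choose_spec
      set q := hgood.choose with hq
      have hdiff : ∀ b ∈ B, |val ps' b - val q b| ≤ 2 / M0 := by
        intro b hb
        have e1 := hz ⟨b, hb⟩
        have e2 := hq2 ⟨b, hb⟩
        simp only at e1 e2
        have e3 : val ps' b - val q b =
            (val ps' b - ((z (σ ⟨b, hb⟩) : ℕ) : ℝ) / M0) -
              (val q b - ((z (σ ⟨b, hb⟩) : ℕ) : ℝ) / M0) := by ring
        rw [e3]
        refine le_trans (abs_sub _ _) ?_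
        have e4 : (2 : ℝ) / M0 = 1 / M0 + 1 / M0 := by ring
        rw [e4]
        exact add_le_add e1 e2
      have hx' : |val ps' x - val q x| ≤ 2 * d / M0 := by
        rw [hval ps' x hx, hval q x hx, ← Finset.sum_sub_distrib]
        refine le_trans (Finset.abs_sum_le_sum_abs _ _) ?_
        calc ∑ b ∈ B, |lam x b * val ps' b - lam x b * val q b|
            ≤ ∑ b ∈ B, (2 : ℝ) / M0 := by
              refine Finset.sum_le_sum fun b hb => ?_
              rw [← mul_sub, abs_mul]
              calc |lam x b| * |val ps' b - val q b| ≤ 1 * (2 / M0) :=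
                    mul_le_mul ((hlam x hx).1 b) (hdiff b hb) (abs_nonneg _) zero_le_one
                _ = 2 / M0 := one_mul _
          _ = B.card * (2 / M0) := by rw [Finset.sum_const, nsmul_eq_mul]
          _ ≤ d * (2 / M0) := by
              refine mul_le_mul_of_nonneg_right ?_ (by positivity)
              exact_mod_cast hBc
          _ = 2 * d / M0 := by ring
      rw [hu]
      have e5 : val ps x = s * val ps' x := by
        rw [hval']
        field_simp
      rw [e5, ← mul_sub, abs_mul, abs_of_pos hpos]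
      exact mul_le_mul_of_nonneg_left hx' hs0

end Pool.Agent.H60.CV
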