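import Pool.Agent.H60.CV.Targets

namespace Pool.Agent.H60.CV

open Finset

theorem neth (hnet : S_NET) : S_NETH := by
  intro X _ _ S d M0 v hM0
  classical
  obtain ⟨B, u, hBS, hBc, hu0, hu1, huS, hmain⟩ := hnet X S d M0 v hM0
  refine ⟨B, u, hBS, hBc, hu0, hu1, huS, ?_⟩
  intro H et si Hm het hsi hHm hH hδ ps hps
  obtain ⟨z, hz⟩ := hmain ps hps
  set s : ℝ := ∑ b ∈ B, ∑ a, ps a * v b a with hs
  set de : ℝ := 2 * d / M0 with hde
  have hM : (0 : ℝ) < M0 := by exact_mod_cast hM0
  have hde0 : 0 ≤ de := by positivity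
  have hs0 : 0 ≤ s := Finset.sum_nonneg fun b hb => hps b (hBS hb)
  have hcard : (S.card : ℝ) ≤ Fintype.card X := by exact_mod_cast Finset.card_le_univ S
  have hS : ∀ f : X → ℝ, ∑ x, f x * u z x = ∑ x ∈ S, f x * u z x := by
    intro f
    symm
    refine Finset.sum_subset (Finset.subset_univ S) fun x _ hx => ?_
    rw [huS z x hx, mul_zero]
  have hS1 : ∑ x, u z x = ∑ x ∈ S, u z x := by
    symm
    exact Finset.sum_subset (Finset.subset_univ S) fun x _ hx => huS z x hx
  by_cases hX : Nonempty X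
  swap
  · have : ∀ T : Finset X, T = ∅ := fun T => Finset.eq_empty_of_forall_notMem fun x => (hX ⟨x⟩).elim
    rw [this S] at *
    have hsz : s = 0 := by
      rw [hs, this B]; simp
    simp [hsz]
  have hHm0 : 0 ≤ Hm := by
    obtain ⟨x⟩ := hX
    exact le_trans (abs_nonneg _) (hHm x)
  -- first estimate
  have h1 : ∑ x ∈ S, H x * (s * u z x) - Hm * Fintype.card X * (s * de) ≤
      ∑ x ∈ S, H x * ∑ a, ps a * v x a := by
    have h2 : ∑ x ∈ S, H x * (s * u z x) - ∑ x ∈ S, H x * ∑ a, ps a * v x a ≤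
        ∑ x ∈ S, Hm * (s * de) := by
      rw [← Finset.sum_sub_distrib]
      refine Finset.sum_le_sum fun x hx => ?_
      rw [← mul_sub]
      refine le_trans (le_abs_self _) ?_
      rw [abs_mul, abs_sub_comm]
      exact mul_le_mul (hHm x) (hz x hx) (abs_nonneg _) hHm0
    rw [Finset.sum_const, nsmul_eq_mul] at h2
    have h3 : (S.card : ℝ) * (Hm * (s * de)) ≤ Hm * Fintype.card X * (s * de) := by
      have : 0 ≤ Hm * (s * de) := by positivity
      nlinarith
    linarith
  have h4 : ∑ x ∈ S, s * u z x ≤ ∑ x ∈ S, ∑ a, ps a * v x a + Fintype.card X * (s * de) := by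
    have h5 : ∑ x ∈ S, s * u z x - ∑ x ∈ S, ∑ a, ps a * v x a ≤ ∑ x ∈ S, (s * de) := by
      rw [← Finset.sum_sub_distrib]
      refine Finset.sum_le_sum fun x hx => ?_
      refine le_trans (le_abs_self _) ?_
      rw [abs_sub_comm]
      exact hz x hx
    rw [Finset.sum_const, nsmul_eq_mul] at h5
    have h6 : (S.card : ℝ) * (s * de) ≤ Fintype.card X * (s * de) := by
      have : 0 ≤ s * de := by positivity
      nlinarith
    linarith
  have h7 : ∑ x ∈ S, H x * (s * u z x) = s * ∑ x, H x * u z x := by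
    rw [hS, Finset.mul_sum]
    exact Finset.sum_congr rfl fun x _ => by ring
  have h8 : ∑ x ∈ S, s * u z x = s * ∑ x, u z x := by
    rw [hS1, Finset.mul_sum]
  have h9 := mul_le_mul_of_nonneg_left (hH z) hs0
  have h10 : s * ((Hm + et) * Fintype.card X * de) ≤ s * si :=
    mul_le_mul_of_nonneg_left hδ hs0
  rw [h7] at h1
  rw [h8] at h4
  have h11 := mul_le_mul_of_nonneg_left h4 het
  nlinarith

end Pool.Agent.H60.CV
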