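import Pool.Agent.H60.CV.Targets

namespace Pool.Agent.H60.CV

open Finset

theorem sep : S_SEP := by
  intro κ K y hc hcl h
  by_contra hy
  obtain ⟨f, u, h1, h2⟩ := geometric_hahn_banach_point_closed hc hcl hy
  have hf : ∀ z : Fin κ → ℝ, f z = ∑ a, f (Pi.single a 1) * z a := by
    intro z
    have h3 : z = ∑ a, z a • (Pi.single a (1 : ℝ) : Fin κ → ℝ) := by
      funext b
      simp [Finset.sum_apply, Pi.single_apply]
    conv_lhs => rw [h3]
    rw [map_sum]
    refine Finset.sum_congr rfl fun a _ => ?_
    rw [map_smul, smul_eq_mul, mul_comm]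
  have h4 := h (fun a => f (Pi.single a 1)) (-u) (by
    intro z hz
    have := h2 z hz
    rw [hf z] at this
    linarith)
  rw [hf y] at h1
  linarith

end Pool.Agent.H60.CV
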