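import Pool.Agent.H60.CV.Targets

namespace Pool.Agent.H60.CV

open Finset Module

theorem span : S_SPAN := by
  intro X _ _ S d v
  classical
  rcases S.eq_empty_or_nonempty with rfl | hS
  · exact ⟨∅, by simp, by simp, fun _ _ => 0, by simp⟩
  set s : Set (Fin d → ℝ) := v '' (S : Set X) with hs
  set W : Submodule ℝ (Fin d → ℝ) := Submodule.span ℝ s with hW
  set k : ℕ := finrank ℝ W with hk
  have hmem : ∀ x ∈ S, v x ∈ W := fun x hx => Submodule.subset_span ⟨x, hx, rfl⟩
  let vW : X → W := fun x => if h : x ∈ S then ⟨v x, hmem x h⟩ else 0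
  have hvW : ∀ x ∈ S, ((vW x : W) : Fin d → ℝ) = v x := by
    intro x hx
    simp [vW, hx]
  let e : Basis (Fin k) ℝ W := finBasis ℝ W
  obtain ⟨f, hf, hfs, hfi⟩ := Submodule.exists_fun_fin_finrank_span_eq ℝ s
  choose t0 ht0 using hf
  let T : Finset (Fin k → X) := Fintype.piFinset (fun _ => S)
  have hT : T.Nonempty := by
    obtain ⟨x, hx⟩ := hS
    exact ⟨fun _ => x, by simp [T, hx]⟩
  obtain ⟨t, htT, htmax⟩ := T.exists_max_image (fun t => |e.det (vW ∘ t)|) hT
  have htS : ∀ l, t l ∈ S := by
    intro l
    have := Fintype.mem_piFinset.1 htT l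
    exact this
  -- the tuple t0 is a basis
  have ht0T : t0 ∈ T := by
    simp only [T, Fintype.mem_piFinset]
    exact fun l => (ht0 l).1
  have hli0 : LinearIndependent ℝ (vW ∘ t0) := by
    have h1 : (W.subtype ∘ (vW ∘ t0)) = f := by
      funext l
      simp only [Function.comp_apply, Submodule.subtype_apply]
      rw [hvW _ (ht0 l).1, (ht0 l).2]
    have h2 : LinearIndependent ℝ (W.subtype ∘ (vW ∘ t0)) := by rw [h1]; exact hfi
    exact LinearIndependent.of_comp W.subtype h2
  have hsp0 : Submodule.span ℝ (Set.range (vW ∘ t0)) = ⊤ :=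
    hli0.span_eq_top_of_card_eq_finrank' (by rw [Fintype.card_fin])
  have hdet0 : e.det (vW ∘ t0) ≠ 0 := by
    have := (e.is_basis_iff_det (v := vW ∘ t0)).1 ⟨hli0, hsp0⟩
    exact this.ne_zero
  have hdet : e.det (vW ∘ t) ≠ 0 := by
    have h1 := htmax t0 ht0T
    have h2 : 0 < |e.det (vW ∘ t0)| := abs_pos.2 hdet0
    exact abs_pos.1 (lt_of_lt_of_le h2 h1)
  obtain ⟨hli, hsp⟩ := (e.is_basis_iff_det (v := vW ∘ t)).2 (isUnit_iff_ne_zero.2 hdet)
  let bb : Basis (Fin k) ℝ W := Basis.mk hli hsp.ge
  have hcoord : ∀ x ∈ S, ∀ l, |bb.coord l (vW x)| ≤ 1 := by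
    intro x hx l
    have h1 := e.det_smul_mk_coord_eq_det_update hli hsp.ge l
    have h2 := congrArg (fun g => g (vW x)) h1
    simp only [LinearMap.smul_apply, smul_eq_mul, MultilinearMap.toLinearMap_apply] at h2
    have h3 : Function.update (vW ∘ t) l (vW x) = vW ∘ (Function.update t l x) := by
      funext l'
      by_cases h : l' = l
      · subst h; simp
      · simp [h]
    have h4 : Function.update t l x ∈ T := by
      simp only [T, Fintype.mem_piFinset]
      intro l'
      by_cases h : l' = l
      · subst h; simpa using hx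
      · simpa [h] using htS l'
    have h5 := htmax _ h4
    have h6 : |e.det (vW ∘ t)| * |bb.coord l (vW x)| ≤ |e.det (vW ∘ t)| * 1 := by
      rw [← abs_mul, mul_one]
      have h7 : e.det (vW ∘ t) * bb.coord l (vW x) = e.det (vW ∘ (Function.update t l x)) := by
        rw [← h3]
        exact h2
      rw [h7]
      exact h5
    exact le_of_mul_le_mul_left h6 (abs_pos.2 hdet)
  have htinj : Function.Injective t := by
    intro a b hab
    have : (vW ∘ t) a = (vW ∘ t) b := by simp [hab]
    exact hli.injective this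
  have hsum : ∀ x ∈ S, ∀ a, v x a = ∑ l, bb.coord l (vW x) * v (t l) a := by
    intro x hx a
    have h1 := bb.sum_repr (vW x)
    have h2 := congrArg (fun z : W => (z : Fin d → ℝ) a) h1
    simp only [Submodule.coe_sum, Submodule.coe_smul, Finset.sum_apply, Pi.smul_apply,
      smul_eq_mul] at h2
    rw [hvW x hx] at h2
    rw [← h2]
    refine Finset.sum_congr rfl fun l _ => ?_
    have h3 : (bb l : W) = vW (t l) := by simp [bb]
    rw [h3, hvW _ (htS l)]
    rfl
  refine ⟨univ.image t, ?_, ?_, fun x y => ∑ l, if t l = y then bb.coord l (vW x) else 0, ?_⟩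
  · intro y hy
    obtain ⟨l, _, rfl⟩ := Finset.mem_image.1 hy
    exact htS l
  · refine le_trans Finset.card_image_le ?_
    rw [Finset.card_univ, Fintype.card_fin]
    have := W.finrank_le
    simpa using this
  · intro x hx
    refine ⟨fun y => ?_, fun a => ?_⟩
    · show |∑ l, if t l = y then bb.coord l (vW x) else 0| ≤ 1
      by_cases h : ∃ l, t l = y
      · obtain ⟨l, rfl⟩ := h
        have : (∑ l', if t l' = t l then bb.coord l' (vW x) else 0) = bb.coord l (vW x) := by
          rw [Finset.sum_eq_single l]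
          · simp
          · intro b _ hb
            rw [if_neg (fun h => hb (htinj h))]
          · simp
        rw [this]
        exact hcoord x hx l
      · have : (∑ l', if t l' = y then bb.coord l' (vW x) else 0) = 0 := by
          refine Finset.sum_eq_zero fun l _ => ?_
          rw [if_neg (fun h' => h ⟨l, h'⟩)]
        rw [this]
        simp
    · rw [Finset.sum_image (fun a _ b _ h => htinj h), hsum x hx a]
      refine Finset.sum_congr rfl fun l _ => ?_
      congr 1
      symm
      show (∑ l', if t l' = t l then bb.coord l' (vW x) else 0) = bb.coord l (vW x)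
      rw [Finset.sum_eq_single l]
      · simp
      · intro b _ hb
        rw [if_neg (fun h => hb (htinj h))]
      · simp

end Pool.Agent.H60.CV
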