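import Pool.Agent.H60.CV.Core2
import Pool.Agent.H60.CV.Span
import Pool.Agent.H60.CV.Net
import Pool.Agent.H60.CV.NetH
import Pool.Agent.H60.CV.Sep
import Pool.Agent.H60.CV.Cell
import Pool.Agent.H1.LP.Asm
import Pool.Agent.H58.LP.PAR

/-!
# SETH for convex relaxations: the final assembly
-/

namespace Pool.Agent.H60.CV

open Finset Filter
open Pool.Agent.H1.LP (kk eta vsi S_PAR)

theorem core' : S_CORE :=
  core H1.LP.key'' H1.LP.base' H2.LP.loc H88.LP.enc H88.LP.form (neth (net span)) (cell sep)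

theorem ev_pow (c : ℕ) (ε : ℝ) (hε : 0 < ε) :
    ∃ n1 : ℕ, ∀ n : ℕ, n1 ≤ n → 4 / 3 * ((n : ℝ) ^ c + 1) ≤ (2 : ℝ) ^ (ε / 2 * n) := by
  have hr : (1 : ℝ) < (2 : ℝ) ^ (ε / 2) := Real.one_lt_rpow (by norm_num) (by positivity)
  have h1 := tendsto_pow_const_div_const_pow_of_one_lt c hr
  have h2 : ∀ᶠ n : ℕ in atTop, (n : ℝ) ^ c / ((2 : ℝ) ^ (ε / 2)) ^ n < 1 / 4 :=
    h1.eventually (gt_mem_nhds (by norm_num))
  obtain ⟨n1, hn1⟩ := eventually_atTop.1 h2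
  refine ⟨max n1 1, fun n hn => ?_⟩
  have h3 := hn1 n (le_of_max_le_left hn)
  have hn0 : (1 : ℝ) ≤ n := by exact_mod_cast le_of_max_le_right hn
  have h4 : ((2 : ℝ) ^ (ε / 2)) ^ n = (2 : ℝ) ^ (ε / 2 * n) := by
    rw [Real.rpow_mul (by norm_num), Real.rpow_natCast]
  rw [h4, div_lt_iff₀ (by positivity)] at h3
  have h5 : (1 : ℝ) ≤ (n : ℝ) ^ c := one_le_pow₀ hn0
  linarith

theorem expo (c n : ℕ) (hn : 5 ≤ n) :
    n ^ c + n ^ c + (n ^ c + n + 3) * (n ^ c + 1) ≤ n ^ (2 * c + 2) := by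
  have h1 : n ^ (2 * c + 2) = n ^ c * n ^ c * (n * n) := by ring
  rw [h1]
  have ha : 1 ≤ n ^ c := Nat.one_le_pow _ _ (by omega)
  obtain ⟨a, haa⟩ : ∃ a, a = n ^ c := ⟨_, rfl⟩
  rw [← haa] at ha ⊢
  have h2 : 2 * n + 10 ≤ n * n := by nlinarith
  have h3 : a * a * (2 * n + 10) ≤ a * a * (n * n) := Nat.mul_le_mul_left _ h2
  have h4 : a ≤ a * a := by nlinarith
  have h5 : n * a ≤ n * (a * a) := Nat.mul_le_mul_left _ h4
  have h6 : n ≤ n * (a * a) := by nlinarith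
  nlinarith

theorem fin (hc : S_CORE) (hp : S_PAR) : Statement := by
  intro c ε hε
  obtain ⟨E, K, γ, hE, hEε, hγ, n0, hn⟩ := hp (2 * c + 2) (ε / 2) (by positivity)
  obtain ⟨n1, hn1⟩ := ev_pow c ε hε
  refine ⟨K, γ, hγ, max (max n0 5) n1, fun n hn0 κ M P hκ hM hsz => ?_⟩
  have hn5 : 5 ≤ n := le_of_max_le_right (le_of_max_le_left hn0)
  obtain ⟨g, s, B, hg, hs, hkB, hBn, h1, h2, h3, h4, h5, h6⟩ :=
    hn n (le_of_max_le_left (le_of_max_le_left hn0))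
  have hnc : 1 ≤ n ^ c := Nat.one_le_pow _ _ (by omega)
  obtain ⟨m, phi, hm1, hm2, hw, hv, hJ⟩ := hc E g s n B κ M (2 ^ (n ^ c)) (4 * (κ + 1) * 2 ^ n) P
    hE hg hs hkB hBn h1 h2 le_rfl
    (by
      refine lt_of_le_of_lt ?_ h3
      have hM' : (M : ℝ) ≤ 2 ^ (n ^ c) := by exact_mod_cast hM
      have hp2 : n ^ c ≤ n ^ (2 * c + 2) := by
        have := expo c n hn5
        omega
      obtain ⟨Z, hZ⟩ : ∃ Z : ℝ, Z = 2 * (4 * E * B * 2 ^ (4 * E * g * kk E)) + 1 := ⟨_, rfl⟩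
      have hZ0 : 0 ≤ Z := by
        rw [hZ]
        positivity
      have hM0 : ((4 * (κ + 1) * 2 ^ n : ℕ) : ℝ) + 1 ≤ 2 ^ (n ^ c + n + 3) := by
        have e1 : κ + 1 ≤ 2 ^ (n ^ c) := by
          have : n ^ c < 2 ^ (n ^ c) := Nat.lt_two_pow_self
          omega
        have e2 : 4 * (κ + 1) * 2 ^ n + 1 ≤ 2 ^ (n ^ c + n + 3) := by
          have e3 : 4 * (κ + 1) * 2 ^ n ≤ 4 * 2 ^ (n ^ c) * 2 ^ n := by gcongr
          have e4 : 2 ^ (n ^ c + n + 3) = 8 * 2 ^ (n ^ c) * 2 ^ n := by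
            rw [pow_add, pow_add]
            ring
          have e5 : 1 ≤ 2 ^ (n ^ c) * 2 ^ n := Nat.one_le_iff_ne_zero.2 (by positivity)
          rw [e4]
          nlinarith
        exact_mod_cast e2
      have hpow : (((4 * (κ + 1) * 2 ^ n : ℕ) : ℝ) + 1) ^ (κ + 1) ≤
          2 ^ ((n ^ c + n + 3) * (n ^ c + 1)) := by
        calc (((4 * (κ + 1) * 2 ^ n : ℕ) : ℝ) + 1) ^ (κ + 1) ≤
              (2 ^ (n ^ c + n + 3)) ^ (κ + 1) := by gcongr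
          _ = 2 ^ ((n ^ c + n + 3) * (κ + 1)) := by rw [← pow_mul]
          _ ≤ 2 ^ ((n ^ c + n + 3) * (n ^ c + 1)) := by
            apply pow_le_pow_right₀ (by norm_num)
            gcongr
      have key : (M : ℝ) * (((2 ^ (n ^ c) : ℕ) : ℝ) *
          (((4 * (κ + 1) * 2 ^ n : ℕ) : ℝ) + 1) ^ (κ + 1) +
          2 * (4 * E * B * 2 ^ (4 * E * g * kk E)) + 1) ≤
          2 ^ (n ^ (2 * c + 2)) * (2 ^ n + 2 * (4 * E * B * 2 ^ (4 * E * g * kk E)) + 1) := by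
        rw [add_assoc, add_assoc, ← hZ]
        have a1 : (M : ℝ) * (((2 ^ (n ^ c) : ℕ) : ℝ) *
            (((4 * (κ + 1) * 2 ^ n : ℕ) : ℝ) + 1) ^ (κ + 1)) ≤ 2 ^ (n ^ (2 * c + 2)) * 2 ^ n := by
          have a3 : (((2 ^ (n ^ c) : ℕ) : ℝ)) = 2 ^ (n ^ c) := by push_cast; rfl
          rw [a3]
          calc (M : ℝ) * (2 ^ (n ^ c) * (((4 * (κ + 1) * 2 ^ n : ℕ) : ℝ) + 1) ^ (κ + 1))
              ≤ 2 ^ (n ^ c) * (2 ^ (n ^ c) * 2 ^ ((n ^ c + n + 3) * (n ^ c + 1))) := by gcongr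
            _ = 2 ^ (n ^ c + n ^ c + (n ^ c + n + 3) * (n ^ c + 1)) := by
              rw [pow_add, pow_add]
              ring
            _ ≤ 2 ^ (n ^ (2 * c + 2)) := pow_le_pow_right₀ (by norm_num) (expo c n hn5)
            _ ≤ 2 ^ (n ^ (2 * c + 2)) * 2 ^ n :=
              le_mul_of_one_le_right (by positivity) (one_le_pow₀ (by norm_num))
        have a2 : (M : ℝ) * Z ≤ 2 ^ (n ^ (2 * c + 2)) * Z := by
          apply mul_le_mul_of_nonneg_right _ hZ0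
          exact hM'.trans (pow_le_pow_right₀ (by norm_num) hp2)
        linarith
      gcongr) hsz
  refine ⟨4 * E * g * kk E, m, phi, hm1, hm2.trans h4, h5, hw, fun x => le_trans ?_ (hv x),
    fun J I hd hcov href => ?_⟩
  · have : 1 / (E : ℝ) ≤ ε := by linarith
    gcongr
  · have h7 := h6 m _ hm1 (hm2.trans h4) (hJ J I _ (by positivity) hd hcov href)
    have h8 := hn1 n (le_of_max_le_right hn0)
    have hS0 : 0 ≤ ∑ j ∈ J, (((I j).card : ℝ) + 1) :=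
      sum_nonneg fun j _ => add_nonneg (Nat.cast_nonneg _) zero_le_one
    have hκ' : (κ : ℝ) ≤ (n : ℝ) ^ c := by exact_mod_cast hκ
    have h9 : (2 : ℝ) ^ ((1 - ε / 2) * n) ≤
        (2 : ℝ) ^ (ε / 2 * n) * ∑ j ∈ J, (((I j).card : ℝ) + 1) := by
      refine h7.trans ?_
      refine mul_le_mul_of_nonneg_right ?_ hS0
      refine le_trans ?_ h8
      gcongr
    have h10 : (2 : ℝ) ^ ((1 - ε / 2) * n) = (2 : ℝ) ^ (ε / 2 * n) * (2 : ℝ) ^ ((1 - ε) * n) := by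
      rw [← Real.rpow_add (by norm_num)]
      congr 1
      ring
    rw [h10] at h9
    exact le_of_mul_le_mul_left h9 (by positivity)

end Pool.Agent.H60.CV
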