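import Pool.Agent.H60.CV.Stmt

/-!
# SETH for convex relaxations: targets of the modules
-/

namespace Pool.Agent.H60.CV

open Finset

/-- SPAN: barycentric spanner. -/
def S_SPAN : Prop :=
  ∀ (X : Type) [Fintype X] [DecidableEq X] (S : Finset X) (d : ℕ) (v : X → Fin d → ℝ),
    ∃ B ⊆ S, B.card ≤ d ∧ ∃ lam : X → X → ℝ, ∀ x ∈ S, (∀ b, |lam x b| ≤ 1) ∧
      ∀ a, v x a = ∑ b ∈ B, lam x b * v b a

/-- NET: `S_SPAN → S_NET`; a finite net of the nonnegative functions in a space of dimension `d` -/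
def S_NET : Prop :=
  ∀ (X : Type) [Fintype X] [DecidableEq X] (S : Finset X) (d M0 : ℕ) (v : X → Fin d → ℝ),
    0 < M0 → ∃ (B : Finset X) (u : (Fin d → Fin (M0 + 1)) → X → ℝ), B ⊆ S ∧ B.card ≤ d ∧
      (∀ z x, 0 ≤ u z x) ∧ (∀ z x, u z x ≤ 1) ∧ (∀ z, ∀ x, x ∉ S → u z x = 0) ∧
      ∀ ps : Fin d → ℝ, (∀ x ∈ S, 0 ≤ ∑ a, ps a * v x a) →
        ∃ z, ∀ x ∈ S, |∑ a, ps a * v x a - (∑ b ∈ B, ∑ a, ps a * v b a) * u z x| ≤
          (∑ b ∈ B, ∑ a, ps a * v b a) * (2 * d / M0)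

/-- NETH: `S_NET → S_NETH`; a lower bound for the net gives one for all nonnegative functions -/
def S_NETH : Prop :=
  ∀ (X : Type) [Fintype X] [DecidableEq X] (S : Finset X) (d M0 : ℕ) (v : X → Fin d → ℝ),
    0 < M0 → ∃ (B : Finset X) (u : (Fin d → Fin (M0 + 1)) → X → ℝ), B ⊆ S ∧ B.card ≤ d ∧
      (∀ z x, 0 ≤ u z x) ∧ (∀ z x, u z x ≤ 1) ∧ (∀ z, ∀ x, x ∉ S → u z x = 0) ∧
      ∀ (H : X → ℝ) (et si Hm : ℝ), 0 ≤ et → 0 ≤ si → (∀ x, |H x| ≤ Hm) →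
        (∀ z, -(et * ∑ x, u z x + si) ≤ ∑ x, H x * u z x) →
        (Hm + et) * Fintype.card X * (2 * d / M0) ≤ si →
        ∀ ps : Fin d → ℝ, (∀ x ∈ S, 0 ≤ ∑ a, ps a * v x a) →
          -(et * ∑ x ∈ S, ∑ a, ps a * v x a + 2 * si * ∑ b ∈ B, ∑ a, ps a * v b a) ≤
            ∑ x ∈ S, H x * ∑ a, ps a * v x a

/-- SEP: a point outside of a closed convex set is separated by an affine functional. -/
def S_SEP : Prop :=
  ∀ (κ : ℕ) (K : Set (Fin κ → ℝ)) (y : Fin κ → ℝ), Convex ℝ K → IsClosed K →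
    (∀ (f : Fin κ → ℝ) (f0 : ℝ), (∀ z ∈ K, 0 ≤ ∑ a, f a * z a + f0) →
      0 ≤ ∑ a, f a * y a + f0) → y ∈ K

/-- CELL: `S_SEP → S_CELL`; a refutation on one cell -/
def S_CELL : Prop :=
  ∀ (X : Type) [Fintype X] [DecidableEq X] (S : Finset X) (κ size dim : ℕ)
    (K : Fin size → Set (Fin κ → ℝ)) (A : Fin size → Fin κ → Fin dim → ℝ)
    (b : Fin size → Fin κ → ℝ) (pt : X → Fin dim → ℝ) (w : Fin dim → ℝ) (w0 : ℝ)
    (B : Fin size → Finset X) (H : X → ℝ) (et si de m : ℝ),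
    (∀ i, Convex ℝ (K i)) →
    (∀ x ∈ S, ∀ i, (fun a => ∑ k, A i a k * pt x k + b i a) ∈ K i) →
    (∀ y : Fin dim → ℝ, (∀ i, (fun a => ∑ k, A i a k * y k + b i a) ∈ K i) →
      de ≤ ∑ k, w k * y k + w0) →
    (∀ x ∈ S, |∑ k, w k * pt x k + w0| ≤ m) →
    (∀ i, B i ⊆ S) → (∀ i, (B i).card ≤ κ + 1) →
    0 ≤ et → 0 < si → 0 ≤ de →
    (∀ (i : Fin size) (f : Fin κ → ℝ) (f0 : ℝ),
      (∀ x ∈ S, 0 ≤ ∑ a, f a * (∑ k, A i a k * pt x k + b i a) + f0) →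
      -(et * ∑ x ∈ S, (∑ a, f a * (∑ k, A i a k * pt x k + b i a) + f0) +
        2 * si * ∑ x ∈ B i, (∑ a, f a * (∑ k, A i a k * pt x k + b i a) + f0)) ≤
        ∑ x ∈ S, H x * (∑ a, f a * (∑ k, A i a k * pt x k + b i a) + f0)) →
    -(et * S.card + si) ≤ ∑ x ∈ S, H x →
    S.Nonempty →
    de * ∑ x ∈ S, H x ≤ ∑ x ∈ S, H x * (∑ k, w k * pt x k + w0) + et * m * S.card +
      2 * si * m * (size * (κ + 1) + 1)

end Pool.Agent.H60.CV
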